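import Pool.Agent.ZPU.StmtsC

/-!
# Squad ZPU, row AFD
-/

set_option autoImplicit false

namespace Pool.Agent.ZPU.H32

open Polynomial Pool.Agent.ZPT Pool.Agent.ZP3

theorem afd (dn3 : DN3Stmt) (afb : AFBStmt) (fnu : FNUStmt) : AFDStmt := by
  classical
  intro n D F G hyp ε hε
  set d : ℕ := Finset.univ.sup D with hd
  have hD : ∀ i, D i ≤ d := fun i => Finset.le_sup (Finset.mem_univ i)
  obtain ⟨M, hM1, hM⟩ := afb d n D F G hD hyp
  have hex : ∀ p : ℕ, ∃ Bad : Set (Fin n → ZMod p), p.Prime → ¬ p ∣ M →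
      40 * (d + 1) < p ∧ Bad.ncard * p ≤ (2 * n ^ 2 * (d + 1)) * p ^ n ∧
      ∀ a : Fin n → ℤ, (fun i => ((a i : ℤ) : ZMod p)) ∉ Bad →
        Hyp p d D (fun i => F i + C (a i) * G i) G := by
    intro p
    by_cases h : p.Prime ∧ ¬ p ∣ M
    · obtain ⟨h1, Bad, h2, h3⟩ := hM p h.1 h.2
      exact ⟨Bad, fun _ _ => ⟨h1, h2, h3⟩⟩
    · exact ⟨∅, fun h1 h2 => absurd ⟨h1, h2⟩ h⟩
  choose Bad hBad using hex
  let BB : ℕ → Set (Fin n → ℤ) := fun p => {a | (fun i => ((a i : ℤ) : ZMod p)) ∈ Bad p}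
  have hper : ∀ p : ℕ, p.Prime → ∀ a a' : Fin n → ℤ,
      (∀ i, (p : ℤ) ∣ a i - a' i) → (a ∈ BB p ↔ a' ∈ BB p) := by
    intro p _ a a' h
    have h1 : (fun k => ((a k : ℤ) : ZMod p)) = fun k => ((a' k : ℤ) : ZMod p) := by
      funext k
      exact ((ZMod.intCast_eq_intCast_iff_dvd_sub (a' k) (a k) p).2 (h k)).symm
    simp only [BB, Set.mem_ofPred_eq, h1]
  have hndvd : ∀ p : ℕ, M + 1 ≤ p → ¬ p ∣ M := by
    intro p hp h
    have := Nat.le_of_dvd hM1 h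
    omega
  have hcnt : ∀ p : ℕ, p.Prime → M + 1 ≤ p →
      (({a ∈ BB p | ∀ i, 0 ≤ a i ∧ a i < p} : Set (Fin n → ℤ)).ncard : ℝ) * p ≤
        (2 * (n : ℝ) ^ 2 * ((d : ℝ) + 1)) * (p : ℝ) ^ n := by
    intro p hp hp0
    have := Fact.mk hp
    have h1 : ({a ∈ BB p | ∀ i, 0 ≤ a i ∧ a i < p} : Set (Fin n → ℤ)).ncard ≤
        (Bad p).ncard := by
      refine Set.ncard_le_ncard_of_injOn
        (fun a => (fun k => ((a k : ℤ) : ZMod p))) ?_ ?_ (Set.toFinite _)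
      · intro a ha
        exact ha.1
      · intro a ha a' ha' h
        funext k
        have h3 := congrFun h k
        simp only at h3
        rw [ZMod.intCast_eq_intCast_iff'] at h3
        rw [Int.emod_eq_of_lt (ha.2 k).1 (ha.2 k).2, Int.emod_eq_of_lt (ha'.2 k).1 (ha'.2 k).2]
          at h3
        exact h3
    have h2 := (hBad p hp (hndvd p hp0)).2.1
    have h3 : ({a ∈ BB p | ∀ i, 0 ≤ a i ∧ a i < p} : Set (Fin n → ℤ)).ncard * p ≤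
        (2 * n ^ 2 * (d + 1)) * p ^ n := (Nat.mul_le_mul_right p h1).trans h2
    exact_mod_cast h3
  obtain ⟨H₀, hH₀⟩ := dn3 n (M + 1) (2 * (n : ℝ) ^ 2 * ((d : ℝ) + 1)) ε hε BB hper hcnt
  refine ⟨H₀, fun H hH A hA => hH₀ H hH A ?_⟩
  intro w hw
  obtain ⟨h1, h3, h4, h5⟩ := hA w hw
  refine ⟨h1, h3, h4, ?_⟩
  rintro ⟨p, hp, hp0, hpd, -, -, hB⟩
  apply h5
  have := Fact.mk hp
  obtain ⟨h6, _, h7⟩ := hBad p hp (hndvd p hp0)
  have h8 := h7 w.1 hB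
  refine fnu p hp d n D (fun i => F i + C (w.1 i) * G i) G h6 h8 (1 / (w.2 : ℚ)) ?_
  have hN0 : (w.2 : ℚ) ≠ 0 := by
    have : w.2 ≠ 0 := by omega
    exact_mod_cast this
  have h9 : padicNorm p (w.2 : ℚ) < 1 := by
    rw [padicNorm.int_lt_one_iff]
    exact hpd
  have h10 : 0 < padicNorm p (w.2 : ℚ) :=
    lt_of_le_of_ne (padicNorm.nonneg _) (Ne.symm (padicNorm.nonzero hN0))
  rw [padicNorm.div, padicNorm.one, one_lt_div h10]
  exact h9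

end Pool.Agent.ZPU.H32
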