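import Pool.Agent.ZPU.Stmts

/-!
# Squad ZPU, row FA2
-/

set_option autoImplicit false

open Polynomial

namespace Pool.Agent.ZPU.H32

section aux

variable {k : Type} [Field k]

theorem mul_derivative_pow (g : k[X]) (s : ℕ) :
    g * derivative (g ^ s) = (s : k[X]) * g ^ s * derivative g := by
  cases s with
  | zero => simp
  | succ s =>
    rw [derivative_pow, Nat.add_sub_cancel, pow_succ]
    simp only [map_natCast]
    ring

theorem wr_pow (g U V : k[X]) (s r : ℕ) : g * wr (g ^ s * U) (g ^ r * V) =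
    g ^ (s + r) * (((s : k[X]) - (r : k[X])) * (derivative g * (U * V)) + g * wr U V) := by
  have h1 := mul_derivative_pow g s
  have h2 := mul_derivative_pow g r
  simp only [wr, derivative_mul]
  rw [pow_add]
  linear_combination (U * g ^ r * V) * h1 - (g ^ s * U * V) * h2

theorem wr_swap (A B : k[X]) : wr B A = -wr A B := by
  simp only [wr]
  ring

theorem wr_neg (A B : k[X]) : wr (-A) B = -wr A B := by
  simp only [wr, derivative_neg]
  ring

end aux

theorem fa2_aux (q : ℕ) (k : Type) [Field k] [CharP k q] (A B R₁ R₂ f A₀ : k[X])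
    (hf0 : 0 < f.natDegree) (hfq : f.natDegree < q) (hA : A = f * A₀) (hc : IsCoprime f A₀)
    (hB : IsCoprime f B) (hR2 : R₂ ≠ 0) (hR2q : R₂.natDegree < q)
    (h : wr R₁ R₂ * (A * B) = R₂ ^ 2 * wr A B) : False := by
  have hf : f ≠ 0 := by
    rintro rfl
    simp at hf0
  have hfu : ¬ IsUnit f := by
    intro hu
    rw [Polynomial.natDegree_eq_zero_of_isUnit hu] at hf0
    omega
  obtain ⟨g, hg, hgf⟩ := WfDvdMonoid.exists_irreducible_factor hfu hf
  have hp : Prime g := hg.prime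
  have hg0 : g ≠ 0 := hg.ne_zero
  have hgd : 0 < g.natDegree := hg.natDegree_pos
  have hgq : g.natDegree < q := lt_of_le_of_lt (natDegree_le_of_dvd hgf hf) hfq
  -- nonzero numbers
  have hcast : ∀ n : ℕ, 0 < n → n < q → (n : k) ≠ 0 := by
    intro n h1 h2 h3
    rw [CharP.cast_eq_zero_iff k q] at h3
    have := Nat.le_of_dvd h1 h3
    omega
  -- the derivative
  have hgg : ¬ g ∣ derivative g := by
    intro hd
    have h1 : derivative g ≠ 0 := by
      intro h2
      have h3 := congrArg (fun p : k[X] => p.coeff (g.natDegree - 1)) h2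
      simp only [coeff_derivative, coeff_zero] at h3
      rw [Nat.sub_add_cancel hgd] at h3
      rcases mul_eq_zero.1 h3 with h4 | h4
      · exact hg0 (leadingCoeff_eq_zero.1 h4)
      · have h5 : ((g.natDegree - 1 : ℕ) : k) + 1 = (g.natDegree : k) := by
          rw [← Nat.cast_succ]
          congr 1
          omega
        rw [h5] at h4
        exact hcast _ hgd hgq h4
    have h2 := natDegree_le_of_dvd hd h1
    have h3 := natDegree_derivative_lt (p := g) (by omega)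
    omega
  -- orders
  have hfin : ∀ P : k[X], P ≠ 0 → ∃ (n : ℕ) (c : k[X]), P = g ^ n * c ∧ ¬ g ∣ c := by
    intro P hP
    have h1 : FiniteMultiplicity g P := FiniteMultiplicity.of_not_isUnit hg.not_isUnit hP
    obtain ⟨c, h2, h3⟩ := h1.exists_eq_pow_mul_and_not_dvd
    exact ⟨_, c, h2, h3⟩
  have hdeg : ∀ (n : ℕ) (c : k[X]), c ≠ 0 → n ≤ (g ^ n * c).natDegree := by
    intro n c hc0
    rw [natDegree_mul (pow_ne_zero _ hg0) hc0, natDegree_pow]
    have h1 : n * 1 ≤ n * g.natDegree := Nat.mul_le_mul_left n hgd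
    omega
  obtain ⟨a, f₀, hfa, hf0'⟩ := hfin f hf
  have hf0ne : f₀ ≠ 0 := by
    rintro rfl
    exact hf0' (dvd_zero _)
  have ha0 : 0 < a := by
    rcases Nat.eq_zero_or_pos a with h1 | h1
    · rw [h1, pow_zero, one_mul] at hfa
      rw [hfa] at hgf
      exact absurd hgf hf0'
    · exact h1
  have haq : a < q := by
    have := hdeg a f₀ hf0ne
    rw [← hfa] at this
    omega
  have hA0 : ¬ g ∣ A₀ := fun h1 => hg.not_isUnit (hc.isUnit_of_dvd' hgf h1)
  have hB0 : ¬ g ∣ B := fun h1 => hg.not_isUnit (hB.isUnit_of_dvd' hgf h1)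
  set A₁ := f₀ * A₀ with hA₁
  have hA1 : ¬ g ∣ A₁ := hp.not_dvd_mul hf0' hA0
  have hAg : A = g ^ a * A₁ := by
    rw [hA, hA₁, hfa, mul_assoc]
  obtain ⟨ρ, V, hV, hV0⟩ := hfin R₂ hR2
  have hVne : V ≠ 0 := by
    rintro rfl
    exact hV0 (dvd_zero _)
  have hρq : ρ < q := by
    have := hdeg ρ V hVne
    rw [← hV] at this
    omega
  -- the bracket of A, B
  set V₁ : k[X] := ((a : k[X]) - ((0 : ℕ) : k[X])) * (derivative g * (A₁ * B)) + g * wr A₁ B
    with hV₁
  have hunit : ∀ c : k, c ≠ 0 → IsUnit (C c : k[X]) := fun c hc => (isUnit_C).2 (IsUnit.mk0 c hc)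
  have hV10 : ¬ g ∣ V₁ := by
    intro h1
    rw [hV₁] at h1
    have h2 := (dvd_add_left (dvd_mul_right g (wr A₁ B))).1 h1
    rw [Nat.cast_zero, sub_zero] at h2
    rcases hp.dvd_or_dvd h2 with h3 | h3
    · have h4 : IsUnit ((a : k[X])) := by
        have := hunit (a : k) (hcast a ha0 haq)
        rwa [map_natCast] at this
      exact hg.not_isUnit (isUnit_of_dvd_unit h3 h4)
    · rcases hp.dvd_or_dvd h3 with h4 | h4
      · exact hgg h4
      · exact hp.not_dvd_mul hA1 hB0 h4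
  have hwAB : g * wr A B = g ^ a * V₁ := by
    have h1 := wr_pow g A₁ B a 0
    rw [pow_zero, one_mul, add_zero] at h1
    rw [hAg, h1]
  -- the main identity
  have hmain : g * wr R₁ R₂ * (A₁ * B) = g ^ (2 * ρ) * (V ^ 2 * V₁) := by
    have h1 : g ^ a * (g * wr R₁ R₂ * (A₁ * B)) = g ^ a * (g ^ (2 * ρ) * (V ^ 2 * V₁)) := by
      calc g ^ a * (g * wr R₁ R₂ * (A₁ * B)) = g * (wr R₁ R₂ * (A * B)) := by
            rw [hAg]; ring
        _ = R₂ ^ 2 * (g * wr A B) := by rw [h]; ring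
        _ = g ^ a * (g ^ (2 * ρ) * (V ^ 2 * V₁)) := by
            rw [hwAB, hV, mul_pow, ← pow_mul, mul_comm ρ 2]; ring
    exact mul_left_cancel₀ (pow_ne_zero _ hg0) h1
  have hVV : ¬ g ∣ V ^ 2 * V₁ := by
    intro h1
    rcases hp.dvd_or_dvd h1 with h2 | h2
    · exact hV0 (hp.dvd_of_dvd_pow h2)
    · exact hV10 h2
  have hAB : ¬ g ∣ A₁ * B := hp.not_dvd_mul hA1 hB0
  have hR1 : R₁ ≠ 0 := by
    rintro rfl
    have h1 : wr (0 : k[X]) R₂ = 0 := by simp [wr]
    rw [h1, mul_zero, zero_mul] at hmain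
    rcases mul_eq_zero.1 hmain.symm with h2 | h2
    · exact pow_ne_zero _ hg0 h2
    · exact hVV (h2 ▸ dvd_zero g)
  obtain ⟨σ, U, hU, hU0⟩ := hfin R₁ hR1
  have h1 := wr_pow g U V σ ρ
  rw [← hU, ← hV] at h1
  rw [h1] at hmain
  set T : k[X] := ((σ : k[X]) - (ρ : k[X])) * (derivative g * (U * V)) + g * wr U V with hT
  rcases lt_trichotomy σ ρ with hσ | hσ | hσ
  · -- σ < ρ
    have h2 : T * (A₁ * B) = g ^ (ρ - σ) * (V ^ 2 * V₁) := by
      refine mul_left_cancel₀ (pow_ne_zero (σ + ρ) hg0) ?_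
      calc g ^ (σ + ρ) * (T * (A₁ * B)) = g ^ (σ + ρ) * T * (A₁ * B) := by ring
        _ = g ^ (2 * ρ) * (V ^ 2 * V₁) := hmain
        _ = g ^ (σ + ρ) * (g ^ (ρ - σ) * (V ^ 2 * V₁)) := by
            rw [← mul_assoc (g ^ (σ + ρ)), ← pow_add]
            congr 2
            omega
    have h3 : g ∣ T * (A₁ * B) := by
      rw [h2]
      exact Dvd.dvd.mul_right (dvd_pow_self g (by omega)) _
    have h4 : g ∣ T := (hp.dvd_or_dvd h3).resolve_right hAB
    rw [hT] at h4
    have h5 := (dvd_add_left (dvd_mul_right g (wr U V))).1 h4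
    rcases hp.dvd_or_dvd h5 with h6 | h6
    · have h7 : ((σ : k[X]) - (ρ : k[X])) = -C (((ρ - σ : ℕ) : k)) := by
        rw [map_natCast, Nat.cast_sub hσ.le]
        ring
      rw [h7, dvd_neg] at h6
      exact hg.not_isUnit (isUnit_of_dvd_unit h6 (hunit _ (hcast (ρ - σ) (by omega) (by omega))))
    · rcases hp.dvd_or_dvd h6 with h7 | h7
      · exact hgg h7
      · exact hp.not_dvd_mul hU0 hV0 h7
  · -- σ = ρ
    subst hσ
    rw [sub_self, zero_mul, zero_add] at hT
    apply hVV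
    refine ⟨wr U V * (A₁ * B), ?_⟩
    refine mul_left_cancel₀ (pow_ne_zero (2 * σ) hg0) ?_
    rw [← hmain, hT, two_mul]
    ring
  · -- ρ < σ
    apply hVV
    have h2 : g ^ (2 * ρ) * (g ^ (σ - ρ) * (T * (A₁ * B))) = g ^ (2 * ρ) * (V ^ 2 * V₁) := by
      rw [← hmain, ← mul_assoc (g ^ (2 * ρ)), ← pow_add,
        show 2 * ρ + (σ - ρ) = σ + ρ by omega]
      ring
    rw [← mul_left_cancel₀ (pow_ne_zero _ hg0) h2]
    exact Dvd.dvd.mul_right (dvd_pow_self g (by omega)) _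

theorem fa2 : FA2Stmt := by
  intro q _ k _ _ A B R₁ R₂ hS hR2 hR2q h
  obtain ⟨f, A₀, h0, h1, h2 | h2⟩ := hS
  · exact fa2_aux q k A B R₁ R₂ f A₀ h0 h1 h2.1 h2.2.1 h2.2.2 hR2 hR2q h
  · refine fa2_aux q k B A (-R₁) R₂ f A₀ h0 h1 h2.1 h2.2.1 h2.2.2 hR2 hR2q ?_
    rw [wr_neg, wr_swap A B, mul_comm B A]
    linear_combination -h

end Pool.Agent.ZPU.H32
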