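import Pool.Agent.ZPU.Stmts

/-!
# Squad ZPU, row FAL
-/

set_option autoImplicit false

open Polynomial

namespace Pool.Agent.ZPU.H32

theorem mul_derivative_pow' {k : Type} [Field k] (g : k[X]) (s : ℕ) :
    g * derivative (g ^ s) = (s : k[X]) * g ^ s * derivative g := by
  cases s with
  | zero => simp
  | succ s =>
    rw [derivative_pow, Nat.add_sub_cancel, pow_succ]
    simp only [map_natCast]
    ring

theorem fal : FALStmt := by
  intro p _ k _ _ A B E₂ w₁ w₂ M E L b c n e h s P₁ P₂ Φ E₁
  have t1 := mul_derivative_pow' (M * L) (e * h)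
  have t2 := mul_derivative_pow' b (e * h)
  have t3 := mul_derivative_pow' E₂ (n * h)
  have t4 := mul_derivative_pow' w₂ e
  have t5 := mul_derivative_pow' B s
  have s1 := mul_derivative_pow' E (n * h)
  have s2 := mul_derivative_pow' w₁ e
  have s3 := mul_derivative_pow' A s
  have s0 : derivative (b ^ (p * (e * h))) = 0 := by
    rw [derivative_pow, Nat.cast_mul, CharP.cast_eq_zero k p]
    simp
  have u1 := mul_derivative_pow' (X : k[X]) n
  have u2 := mul_derivative_pow' (X : k[X]) e
  rw [derivative_X, mul_one] at u1 u2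
  rw [derivative_mul] at t1
  have h1 : derivative P₁ * (M * L * b * E₂ * w₂ * B) = P₁ *
      (((e * h : ℕ) : k[X]) * (derivative M * L * b + M * derivative L * b +
        M * L * derivative b) * E₂ * w₂ * B +
      ((n * h : ℕ) : k[X]) * (M * L * b) * derivative E₂ * w₂ * B +
      (e : k[X]) * (M * L * b) * E₂ * derivative w₂ * B +
      (s : k[X]) * (M * L * b) * E₂ * w₂ * derivative B) := by
    simp only [P₁, derivative_mul (f := (M * L) ^ (e * h) * b ^ (e * h) * E₂ ^ (n * h) * w₂ ^ e),
      derivative_mul (f := (M * L) ^ (e * h) * b ^ (e * h) * E₂ ^ (n * h)),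
      derivative_mul (f := (M * L) ^ (e * h) * b ^ (e * h)),
      derivative_mul (f := (M * L) ^ (e * h))]
    linear_combination
      (b ^ (e * h) * E₂ ^ (n * h) * w₂ ^ e * B ^ s * (b * E₂ * w₂ * B)) * t1 +
      ((M * L) ^ (e * h) * E₂ ^ (n * h) * w₂ ^ e * B ^ s * (M * L * E₂ * w₂ * B)) * t2 +
      ((M * L) ^ (e * h) * b ^ (e * h) * w₂ ^ e * B ^ s * (M * L * b * w₂ * B)) * t3 +
      ((M * L) ^ (e * h) * b ^ (e * h) * E₂ ^ (n * h) * B ^ s * (M * L * b * E₂ * B)) * t4 +
      ((M * L) ^ (e * h) * b ^ (e * h) * E₂ ^ (n * h) * w₂ ^ e * (M * L * b * E₂ * w₂)) * t5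
  have h2 : derivative P₂ * (E * w₁ * A) = P₂ *
      (((n * h : ℕ) : k[X]) * derivative E * w₁ * A + (e : k[X]) * E * derivative w₁ * A +
      (s : k[X]) * E * w₁ * derivative A) := by
    simp only [P₂, derivative_mul (f := C c * b ^ (p * (e * h)) * E ^ (n * h) * w₁ ^ e),
      derivative_mul (f := C c * b ^ (p * (e * h)) * E ^ (n * h)),
      derivative_mul (f := C c * b ^ (p * (e * h))),
      derivative_mul (f := C c), derivative_C, s0]
    linear_combination
      (C c * b ^ (p * (e * h)) * w₁ ^ e * A ^ s * (w₁ * A)) * s1 +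
      (C c * b ^ (p * (e * h)) * E ^ (n * h) * A ^ s * (E * A)) * s2 +
      (C c * b ^ (p * (e * h)) * E ^ (n * h) * w₁ ^ e * (E * w₁)) * s3
  have h3 : derivative Φ = derivative (X ^ n) * M * b * L + X ^ n * derivative M * b * L +
      X ^ n * M * derivative b * L + X ^ n * M * b * derivative L := by
    simp only [Φ, derivative_mul]
    ring
  have h4 : derivative E₁ = derivative (X ^ e) * E + X ^ e * derivative E := by
    simp only [E₁, derivative_mul]
  refine mul_left_cancel₀ (X_ne_zero (R := k)) ?_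
  simp only [wr]
  rw [h3, h4]
  simp only [Φ, E₁]
  generalize derivative P₁ = D1 at *
  generalize derivative P₂ = D2 at *
  generalize derivative (X ^ n : k[X]) = dn at *
  generalize derivative (X ^ e : k[X]) = de at *
  push_cast at *
  linear_combination
    (X * X ^ n * X ^ e * E * w₁ * A * P₂) * h1 -
    (X * X ^ n * X ^ e * M * b * L * E₂ * w₂ * B * P₁) * h2 -
    (P₁ * P₂ * ((e : k[X]) * (h : k[X])) * M * b * L * X ^ e * E * E₂ * w₁ * w₂ * A * B) * u1 +
    (P₁ * P₂ * X ^ n * M * b * L * ((n : k[X]) * (h : k[X])) * E * E₂ * w₁ * w₂ * A * B) * u2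

end Pool.Agent.ZPU.H32
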